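import Pool.Agent.Q181.TO.TriV
import Pool.Agent.Y75.Th.Norm

set_option autoImplicit false
set_option linter.unusedSectionVars false

/-! Finitely supported functions on the vertices of the graph of a matrix as row vectors. -/

namespace Pool.Agent.Q181.TO

open Matrix TH57.Thr TH6.LF

variable {G : Type} [Group G] {ι κ : Type}

/-- the row vector of a function with finite support -/
noncomputable def rv [DecidableEq ι] (P : Finset (G × ι)) (f : G × ι → ℝ) :
    ι → MonoidAlgebra ℝ G :=
  fun i => ∑ p ∈ P, if p.2 = i then MonoidAlgebra.single p.1 (f p) else 0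

theorem coeff_rv [DecidableEq ι] (P : Finset (G × ι)) (f : G × ι → ℝ) (hf : ∀ p, p ∉ P → f p = 0)
    (i : ι) (g : G) : (rv P f i).coeff g = f (g, i) := by
  classical
  unfold rv
  rw [MonoidAlgebra.coeff_sum, Finsupp.finsetSum_apply]
  by_cases h : (g, i) ∈ P
  · rw [Finset.sum_eq_single (g, i)]
    · simp
    · rintro ⟨g', i'⟩ _ hne
      by_cases h1 : i' = i
      · subst h1
        have : g' ≠ g := fun h2 => hne (by rw [h2])
        simp [this]
      · simp [h1]
    · intro h1; exact absurd h h1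
  · rw [hf _ h]
    apply Finset.sum_eq_zero
    rintro ⟨g', i'⟩ hmem
    by_cases h1 : i' = i
    · subst h1
      have : g' ≠ g := fun h2 => h (by rw [← h2]; exact hmem)
      simp [this]
    · simp [h1]

/-- the coefficients of a product -/
theorem coeff_rv_mul [Fintype ι] [DecidableEq ι] (A : Matrix ι κ (MonoidAlgebra ℤ G))
    (P : Finset (G × ι)) (f : G × ι → ℝ) (j : κ) (k : G) :
    ((rv P f ᵥ* toReal A) j).coeff k
      = ∑ p ∈ P, (((A p.2 j).coeff (p.1⁻¹ * k) : ℤ) : ℝ) * f p := by
  simp only [Matrix.vecMul, dotProduct]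
  rw [MonoidAlgebra.coeff_sum, Finsupp.finsetSum_apply]
  have h1 : ∀ i, (rv P f i * toReal A i j).coeff k
      = ∑ p ∈ P, if p.2 = i then (((A p.2 j).coeff (p.1⁻¹ * k) : ℤ) : ℝ) * f p else 0 := by
    intro i
    simp only [rv]
    rw [Finset.sum_mul, MonoidAlgebra.coeff_sum, Finsupp.finsetSum_apply]
    refine Finset.sum_congr rfl fun p _ => ?_
    split_ifs with h
    · subst h
      rw [MonoidAlgebra.coeff_single_mul_apply]
      simp only [toReal, Matrix.map_apply, MonoidAlgebra.coeff_mapRingHom]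
      rw [mul_comm]
      rfl
    · simp
  simp only [h1]
  rw [Finset.sum_comm]
  refine Finset.sum_congr rfl fun p _ => ?_
  simp

theorem ip_rv [Fintype ι] [DecidableEq ι] (z : ι → MonoidAlgebra ℝ G) (P : Finset (G × ι))
    (f : G × ι → ℝ) : ip z (rv P f) = ∑ p ∈ P, (z p.2).coeff p.1 * f p := by
  classical
  have h0 : ∀ p : G × ι, ∀ i, (z i * bar (if p.2 = i then MonoidAlgebra.single p.1 (f p) else 0 :
      MonoidAlgebra ℝ G)).coeff 1 = if p.2 = i then (z p.2).coeff p.1 * f p else 0 := by
    intro p i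
    split_ifs with h
    · subst h
      rw [bar_single, MonoidAlgebra.coeff_mul_single_apply, inv_inv, one_mul]
    · rw [bar_zero, mul_zero]; rfl
  unfold ip rv
  rw [MonoidAlgebra.coeff_sum, Finsupp.finsetSum_apply]
  have h1 : ∀ i, (z i * bar (∑ p ∈ P, if p.2 = i then MonoidAlgebra.single p.1 (f p) else 0)).coeff 1
      = ∑ p ∈ P, if p.2 = i then (z p.2).coeff p.1 * f p else 0 := by
    intro i
    rw [bar_sum, Finset.mul_sum, MonoidAlgebra.coeff_sum, Finsupp.finsetSum_apply]
    exact Finset.sum_congr rfl fun p _ => h0 p i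
  simp only [h1]
  rw [Finset.sum_comm]
  refine Finset.sum_congr rfl fun p _ => ?_
  simp

theorem normSq_rv [Fintype ι] [DecidableEq ι] (P : Finset (G × ι)) (f : G × ι → ℝ)
    (hf : ∀ p, p ∉ P → f p = 0) : normSq (rv P f) = ∑ p ∈ P, f p ^ 2 := by
  rw [← ip_self, ip_rv]
  refine Finset.sum_congr rfl fun p _ => ?_
  rw [coeff_rv P f hf, sq]

/-- a coefficient is bounded by the norm -/
theorem coeff_sq_le [Fintype ι] (z : ι → MonoidAlgebra ℝ G) (i : ι) (g : G) :
    (z i).coeff g ^ 2 ≤ normSq z := by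
  classical
  have h1 : (z i).coeff g ^ 2 ≤ n1 (z i) := by
    rw [n1_eq (z i) (insert g (z i).coeff.support) (Finset.subset_insert _ _)]
    exact Finset.single_le_sum (f := fun g => (z i).coeff g ^ 2) (fun _ _ => sq_nonneg _)
      (Finset.mem_insert_self _ _)
  exact h1.trans (Finset.single_le_sum (f := fun i => n1 (z i)) (fun _ _ => n1_nonneg _)
    (Finset.mem_univ i))

/-- the defect of an approximate singular vector -/
theorem defect [Fintype ι] [Fintype κ] (A : Matrix ι κ (MonoidAlgebra ℤ G)) (c : ℝ)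
    (hc : 0 < c) (hA : NormLE A c) (x : ι → MonoidAlgebra ℝ G) (y : κ → MonoidAlgebra ℝ G) :
    normSq (x ᵥ* toReal A - c • y)
      ≤ c * (c * (normSq x + normSq y) - 2 * ip (x ᵥ* toReal A) y) := by
  have h1 : normSq (x ᵥ* toReal A - c • y)
      = normSq (x ᵥ* toReal A) - 2 * c * ip (x ᵥ* toReal A) y + c ^ 2 * normSq y := by
    have h2 : x ᵥ* toReal A - c • y = (x ᵥ* toReal A) + (-c) • y := by
      rw [neg_smul, sub_eq_add_neg]
    rw [h2, ← ip_self, ip_add_left, ip_add_right, ip_add_right, ip_smul_left, ip_smul_left,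
      ip_smul_right, ip_smul_right, ip_self, ip_self, ip_comm y]
    ring
  have h2 := hA x
  rw [h1]
  nlinarith

end Pool.Agent.Q181.TO
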