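import Pool.Agent.TH6.LF.Blk

set_option autoImplicit false
set_option linter.style.haveILetI false
set_option linter.unusedSectionVars false

/-! The structure theorems of `TH57.Thr` and `TH6.LF` for matrices whose graphs have no long
tripods (the proofs are the ones given there for norms less than `3 / √2`). -/

namespace Pool.Agent.Q181.TO

open Matrix SimpleGraph TH57.Thr TH6.LF Subgroup

section str

variable {G : Type*} [Group G] {ι κ : Type*}

/-- The stabilisers of the components are cyclic. -/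
theorem stab_cyclic_of [Fintype ι] [Fintype κ] [DecidableEq ι] [DecidableEq κ]
    (htf : ∀ g : G, ∀ n : ℕ, 0 < n → g ^ n = 1 → g = 1)
    (A : Matrix ι κ (MonoidAlgebra ℤ G)) (b : Vx G ι κ) (N : ℕ)
    (hN : ¬ HasTripod (cp A b).toSimpleGraph N) : IsCyclic (stab A b) := by
  classical
  letI := act A b
  set Γ := (cp A b).toSimpleGraph with hΓ
  have hconn : Γ.Connected := (cp A b).connected_toSimpleGraph
  have hadj : ∀ u v : cp A b, Γ.Adj u v ↔ (gr A).Adj u.1 v.1 := fun u v =>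
    SimpleGraph.ConnectedComponent.toSimpleGraph_adj _ u.2 v.2
  refine isCyclic_of_noTripod (S := stab A b) hconn (fun v => (Sum.isLeft v.1)) ?_ (dg A) ?_ N hN
    ?_ ?_ (Finset.univ.biUnion (fun p : ι ⊕ κ =>
      if h : ∃ v : cp A b, ix v.1 = p then {Classical.choose h} else ∅)) ?_ ?_
  · intro u v h
    rw [hadj] at h
    rcases u with ⟨p | q, hu⟩ <;> rcases v with ⟨p' | q', hv⟩
    · exact absurd rfl h
    · simp
    · simp
    · exact absurd rfl h
  · intro v
    obtain ⟨T, hT1, hT2⟩ := nbr_row A v.1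
    have hsub : (Subtype.val '' Γ.neighborSet v) ⊆ (T : Set (Vx G ι κ)) := by
      rintro _ ⟨u, hu, rfl⟩
      exact hT1 ((hadj v u).1 hu)
    have hfin : (Subtype.val '' Γ.neighborSet v).Finite := T.finite_toSet.subset hsub
    refine ⟨hfin.of_finite_image Subtype.val_injective.injOn, ?_⟩
    rw [← Set.ncard_image_of_injective _ Subtype.val_injective]
    exact (Set.ncard_le_ncard hsub T.finite_toSet).trans (by rw [Set.ncard_coe_finset]; exact hT2)
  · intro g u v h
    rw [hadj] at h ⊢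
    exact adj_mv A g.1 _ _ h
  · intro g v h
    exact Subtype.ext (mv_free g.1 v.1 (congrArg Subtype.val h))
  · intro v
    have hex : ∃ w : cp A b, ix w.1 = ix v.1 := ⟨v, rfl⟩
    set w := Classical.choose hex with hw
    have hwix : ix w.1 = ix v.1 := Classical.choose_spec hex
    have h1 : mv (ge v.1 * (ge w.1)⁻¹) w.1 = v.1 := by
      calc mv (ge v.1 * (ge w.1)⁻¹) w.1
          = mv (ge v.1 * (ge w.1)⁻¹) (mv (ge w.1) (bs (ix w.1))) := by rw [mv_ge_bs w.1]
        _ = v.1 := by rw [← mv_mul, inv_mul_cancel_right, hwix, mv_ge_bs]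
    have h2 : ge v.1 * (ge w.1)⁻¹ ∈ stab A b := by
      rw [mem_stab]
      have hb1 : (gr A).Reachable b v.1 := (mem_cp A b _).1 v.2
      have hb2 : (gr A).Reachable b w.1 := (mem_cp A b _).1 w.2
      have h3 := reachable_mv A (ge v.1 * (ge w.1)⁻¹) hb2
      rw [h1] at h3
      exact hb1.trans h3.symm
    refine ⟨⟨_, h2⟩, w, ?_, Subtype.ext h1⟩
    rw [Finset.mem_biUnion]
    refine ⟨ix v.1, Finset.mem_univ _, ?_⟩
    rw [dif_pos hex]
    exact Finset.mem_singleton_self _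
  · intro g n hn h
    exact Subtype.ext (htf g.1 n hn (by
      have := congrArg Subtype.val h
      simpa using this))

/-- The structure theorem. -/
theorem structure_of [Fintype ι] [Fintype κ] [DecidableEq ι] [DecidableEq κ]
    (A : Matrix ι κ (MonoidAlgebra ℤ G)) (hcyc : ∀ b, IsCyclic (stab A b)) :
    ∃ (ρ : ι ⊕ κ → ι ⊕ κ) (u : ι ⊕ κ → G) (C : ι ⊕ κ → Subgroup G),
      (∀ b, IsCyclic (C b)) ∧ ∀ i j h, (A i j).coeff h ≠ 0 →
        ρ (Sum.inl i) = ρ (Sum.inr j) ∧
          u (Sum.inl i) * h * (u (Sum.inr j))⁻¹ ∈ C (ρ (Sum.inl i)) := by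
  classical
  let st : Setoid (ι ⊕ κ) :=
    { r := fun p q => ∃ g : G, (gr A).Reachable (bs p) (mv g (bs q))
      iseqv := by
        refine ⟨fun p => ⟨1, by rw [mv_one]⟩, ?_, ?_⟩
        · rintro p q ⟨g, hg⟩
          refine ⟨g⁻¹, ?_⟩
          have := reachable_mv A g⁻¹ hg
          rw [← mv_mul, inv_mul_cancel, mv_one] at this
          exact this.symm
        · rintro p q r ⟨g, hg⟩ ⟨h, hh⟩
          refine ⟨g * h, ?_⟩
          rw [mv_mul]
          exact hg.trans (reachable_mv A g hh) }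
  let ρ : ι ⊕ κ → ι ⊕ κ := fun p => (Quotient.mk st p).out
  have hρ : ∀ p, ∃ g : G, (gr A).Reachable (bs (ρ p)) (mv g (bs p)) := fun p =>
    Quotient.exact (Quotient.out_eq (Quotient.mk st p))
  choose u hu using hρ
  refine ⟨ρ, u, fun b => stab A (bs b), fun b => hcyc _, ?_⟩
  intro i j h hne
  have hadj : (gr A).Reachable (bs (Sum.inl i)) (mv h (bs (Sum.inr j))) := by
    apply SimpleGraph.Adj.reachable
    rw [gr_adj]
    simp only [bs, mv, wt]
    simpa using hne
  have heq : ρ (Sum.inl i) = ρ (Sum.inr j) := by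
    have : Quotient.mk st (Sum.inl i) = Quotient.mk st (Sum.inr j) := Quotient.sound ⟨h, hadj⟩
    simp only [ρ, this]
  refine ⟨heq, ?_⟩
  rw [mem_stab]
  have h1 := hu (Sum.inl i)
  have h2 := reachable_mv A (u (Sum.inl i)) hadj
  have h3 := hu (Sum.inr j)
  rw [← heq] at h3
  have h4 := reachable_mv A (u (Sum.inl i) * h * (u (Sum.inr j))⁻¹) h3
  have e : mv (u (Sum.inl i) * h * (u (Sum.inr j))⁻¹) (mv (u (Sum.inr j)) (bs (Sum.inr j)))
      = mv (u (Sum.inl i)) (mv h (bs (Sum.inr j) : Vx G ι κ)) := by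
    rw [← mv_mul, ← mv_mul]
    congr 1
    group
  rw [e] at h4
  exact (h1.trans h2).trans h4.symm

end str

section kone

variable {Γ : Type} [Group Γ]

/-- **Small norm invertible matrices are stably trivial.** -/
theorem TT_of (htf : ∀ g : Γ, ∀ k : ℕ, 0 < k → g ^ k = 1 → g = 1)
    {κ : Type} [Fintype κ] [DecidableEq κ] (A : (Matrix κ κ (MonoidAlgebra ℤ Γ))ˣ)
    (hcyc : ∀ b, IsCyclic (stab (A : Matrix κ κ (MonoidAlgebra ℤ Γ)) b)) : TT (TU Γ) A := by
  obtain ⟨ρ, u, C, hC, hst⟩ := structure_of _ hcyc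
  let B : (Matrix κ κ (MonoidAlgebra ℤ Γ))ˣ := dgu (fun i => u (Sum.inl i)) * A
    * (dgu (fun j => u (Sum.inr j)))⁻¹
  have hB : ∀ i j, (B : Matrix κ κ (MonoidAlgebra ℤ Γ)) i j
      = MonoidAlgebra.single (u (Sum.inl i)) 1 * (A : Matrix κ κ (MonoidAlgebra ℤ Γ)) i j
        * MonoidAlgebra.single (u (Sum.inr j))⁻¹ 1 := by
    intro i j
    change (Matrix.diagonal (fun i => MonoidAlgebra.single (u (Sum.inl i)) (1 : ℤ))
      * (A : Matrix κ κ (MonoidAlgebra ℤ Γ))
      * Matrix.diagonal (fun j => MonoidAlgebra.single (u (Sum.inr j))⁻¹ (1 : ℤ)) :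
        Matrix κ κ (MonoidAlgebra ℤ Γ)) i j = _
    rw [Matrix.mul_diagonal, Matrix.diagonal_mul]
  have hBc : ∀ i j g, ((B : Matrix κ κ (MonoidAlgebra ℤ Γ)) i j).coeff g ≠ 0 →
      ρ (Sum.inl i) = ρ (Sum.inr j) ∧ g ∈ C (ρ (Sum.inl i)) := by
    intro i j g hg
    rw [hB, MonoidAlgebra.coeff_mul_single_apply, MonoidAlgebra.coeff_single_mul_apply, one_mul,
      mul_one, inv_inv] at hg
    have h1 := hst i j _ hg
    refine ⟨h1.1, ?_⟩
    have h2 := h1.2
    have h3 : u (Sum.inl i) * ((u (Sum.inl i))⁻¹ * (g * u (Sum.inr j))) * (u (Sum.inr j))⁻¹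
        = g := by group
    rwa [h3] at h2
  obtain ⟨σ, hσ⟩ := aug_perm B
  have hlab : ∀ i, ρ (Sum.inl (σ i)) = ρ (Sum.inr i) := by
    intro i
    have h1 := hσ i
    by_contra h2
    apply h1
    ext g
    by_contra h3
    exact h2 (hBc _ _ g h3).1
  have hP : TT (TU Γ) (pu (R := MonoidAlgebra ℤ Γ) σ) := by
    have h1 : pu (R := MonoidAlgebra ℤ Γ) σ
        = Units.map (mpm (Int.castRingHom (MonoidAlgebra ℤ Γ))) (pu (R := ℤ) σ) := by
      apply Units.ext
      ext1 i j
      change (1 : Matrix κ κ (MonoidAlgebra ℤ Γ)) (σ i) j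
        = (((1 : Matrix κ κ ℤ) (σ i) j : ℤ) : MonoidAlgebra ℤ Γ)
      rw [Matrix.one_apply, Matrix.one_apply]
      split_ifs <;> simp
    rw [h1]
    exact TT_im _
  have hPB : TT (TU Γ) (pu (R := MonoidAlgebra ℤ Γ) σ * B) := by
    apply TT_blocks htf _ κ le_rfl _ (fun i => ρ (Sum.inr i)) C hC
    intro i j g hg
    have h1 : ((pu (R := MonoidAlgebra ℤ Γ) σ * B : (Matrix κ κ (MonoidAlgebra ℤ Γ))ˣ) :
        Matrix κ κ (MonoidAlgebra ℤ Γ)) i j = (B : Matrix κ κ (MonoidAlgebra ℤ Γ)) (σ i) j := by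
      change ((1 : Matrix κ κ (MonoidAlgebra ℤ Γ)).submatrix σ id
        * (B : Matrix κ κ (MonoidAlgebra ℤ Γ))) i j = _
      rw [← Matrix.submatrix_id_id (B : Matrix κ κ (MonoidAlgebra ℤ Γ)),
        ← Matrix.submatrix_mul _ _ σ id id Function.bijective_id, Matrix.one_mul,
        Matrix.submatrix_id_id]
      rfl
    rw [h1] at hg
    have h2 := hBc _ _ g hg
    rw [hlab] at h2
    exact h2
  have hA2 : A = (dgu (fun i => u (Sum.inl i)))⁻¹ * ((pu (R := MonoidAlgebra ℤ Γ) σ)⁻¹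
      * (pu (R := MonoidAlgebra ℤ Γ) σ * B)) * dgu (fun j => u (Sum.inr j)) := by
    simp only [B]; group
  rw [hA2]
  exact TT_mul _ _ _ (TT_mul _ _ _ (TT_inv _ _ (TT_dgu htf _))
    (TT_mul _ _ _ (TT_inv _ _ hP) hPB)) (TT_dgu htf _)



end kone

section sym

variable {G : Type*} [Group G] {ι : Type*} (A : Matrix ι ι (MonoidAlgebra ℤ G))
  (hsym : ∀ i j h, (A i j).coeff h ≠ 0 → (A j i).coeff h⁻¹ ≠ 0)

theorem stb_cyclic_of [Fintype ι] [DecidableEq ι]
    (htf : ∀ g : G, ∀ n : ℕ, 0 < n → g ^ n = 1 → g = 1) (i : ι)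
    (hcyc : IsCyclic (stab A (Sum.inl (1, i)))) :
    IsCyclic (stb A hsym i) := by
  classical
  have hle : stab A (Sum.inl (1, i)) ≤ stb A hsym i := by
    intro g hg
    rw [mem_stab] at hg
    left
    simpa [TH57.Thr.mv] using hg
  refine isCyclic_of_finiteIndex (S := stb A hsym i) (fun g n hn h => Subtype.ext
    (htf g.1 n hn (by simpa using congrArg Subtype.val h)))
    ((stab A (Sum.inl (1, i))).subgroupOf (stb A hsym i)) ?_ ?_
  · exact (MulEquiv.isCyclic (Subgroup.subgroupOfEquivOfLe hle)).2 hcyc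
  · have hkey : ∀ s t : stb A hsym i, s.1 ∉ stab A (Sum.inl (1, i)) →
        t.1 ∉ stab A (Sum.inl (1, i)) → (s.1)⁻¹ * t.1 ∈ stab A (Sum.inl (1, i)) := by
      have aux : ∀ s : stb A hsym i, s.1 ∉ stab A (Sum.inl (1, i)) →
          (gr A).Reachable (Sum.inl (1, i)) (Sum.inr (s.1, i)) := by
        intro s hs
        rcases s.2 with h | h
        · exact absurd (by rw [mem_stab]; simpa [TH57.Thr.mv] using h) hs
        · exact h
      intro s t hs ht
      have h1 := aux s hs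
      have h2 := aux t ht
      have h3 := reachable_mv A (s.1)⁻¹ (h1.symm.trans h2)
      simp only [TH57.Thr.mv, inv_mul_cancel] at h3
      have h4 := reachable_sw A hsym h3
      rw [mem_stab]
      simpa [TH57.Thr.mv, sw] using h4
    rw [Subgroup.finiteIndex_iff_finite_quotient]
    refine Finite.of_injective (β := Prop)
      (fun x : (stb A hsym i) ⧸ ((stab A (Sum.inl (1, i))).subgroupOf (stb A hsym i)) =>
        x = QuotientGroup.mk 1) ?_
    intro x y hxy
    induction x using QuotientGroup.induction_on with | H s => ?_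
    induction y using QuotientGroup.induction_on with | H t => ?_
    simp only [eq_iff_iff] at hxy
    rw [eq_comm (a := (QuotientGroup.mk s : _ ⧸ _)),
      eq_comm (a := (QuotientGroup.mk t : _ ⧸ _))] at hxy
    rw [QuotientGroup.eq, QuotientGroup.eq] at hxy
    simp only [inv_one, one_mul, mem_subgroupOf] at hxy
    rw [QuotientGroup.eq, mem_subgroupOf]
    by_cases h : s.1 ∈ stab A (Sum.inl (1, i))
    · exact mul_mem (inv_mem h) (hxy.1 h)
    · exact hkey s t h (fun h' => h (hxy.2 h'))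

/-- The structure theorem for symmetric patterns. -/
theorem sym_structure_of [Fintype ι] [DecidableEq ι]
    (htf : ∀ g : G, ∀ n : ℕ, 0 < n → g ^ n = 1 → g = 1)
    (A : Matrix ι ι (MonoidAlgebra ℤ G))
    (hsym : ∀ i j h, (A i j).coeff h ≠ 0 → (A j i).coeff h⁻¹ ≠ 0)
    (hcyc : ∀ b, IsCyclic (stab A b)) :
    ∃ (ρ : ι → ι) (u : ι → G) (C : ι → Subgroup G),
      (∀ b, IsCyclic (C b)) ∧ ∀ i j h, (A i j).coeff h ≠ 0 →
        ρ i = ρ j ∧ u i * h * (u j)⁻¹ ∈ C (ρ i) := by
  classical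
  let st : Setoid ι :=
    { r := fun p q => ∃ g : G, Rl A (1, p) (g, q)
      iseqv := by
        refine ⟨fun p => ⟨1, Rl.refl A _⟩, ?_, ?_⟩
        · rintro p q ⟨g, hg⟩
          refine ⟨g⁻¹, ?_⟩
          have := Rl.mv A g⁻¹ hg
          simp only [mul_one, inv_mul_cancel] at this
          exact Rl.symm A hsym this
        · rintro p q r ⟨g, hg⟩ ⟨h, hh⟩
          refine ⟨g * h, Rl.trans A hsym hg ?_⟩
          have := Rl.mv A g hh
          simpa only [mul_one] using this }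
  let ρ : ι → ι := fun p => (Quotient.mk st p).out
  have hρ : ∀ p, ∃ g : G, Rl A (1, ρ p) (g, p) := fun p =>
    Quotient.exact (Quotient.out_eq (Quotient.mk st p))
  choose u hu using hρ
  refine ⟨ρ, u, fun b => stb A hsym b, fun b => stb_cyclic_of A hsym htf b (hcyc _), ?_⟩
  intro i j h hne
  have hadj : Rl A (1, i) (h, j) := by
    right
    apply SimpleGraph.Adj.reachable
    rw [gr_adj]
    simp only [wt]
    simpa using hne
  have heq : ρ i = ρ j := by
    have : Quotient.mk st i = Quotient.mk st j := Quotient.sound ⟨h, hadj⟩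
    simp only [ρ, this]
  refine ⟨heq, ?_⟩
  rw [mem_stb]
  have h1 := hu i
  have h2 := Rl.mv A (u i) hadj
  have h3 := hu j
  rw [← heq] at h3
  have h4 := Rl.mv A (u i * h * (u j)⁻¹) h3
  simp only [mul_one, inv_mul_cancel_right] at h2 h4
  exact Rl.trans A hsym (Rl.trans A hsym h1 h2) (Rl.symm A hsym h4)

end sym

section form

variable {G : Type} [Group G] {ι : Type}

/-- The main theorem on forms below the threshold. -/
theorem forms_of [Fintype ι] [DecidableEq ι]
    (htf : ∀ g : G, ∀ n : ℕ, 0 < n → g ^ n = 1 → g = 1) (ε : ℤ) (hε : ε = 1 ∨ ε = -1)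
    (ψ : Matrix ι ι (MonoidAlgebra ℤ G))
    (hcyc : ∀ b, IsCyclic (stab (ψ + ε • adj ψ) b)) :
    ∃ (ρ : ι → ι) (u : ι → G) (C : ι → Subgroup G)
      (θ : ∀ a, Matrix {i // ρ i = a} {i // ρ i = a} (MonoidAlgebra ℤ (C a)))
      (χ : Matrix ι ι (MonoidAlgebra ℤ G)),
      (∀ a, IsCyclic (C a)) ∧
      Dm u * ψ * adj (Dm u) = indSum ρ C θ + (χ - ε • adj χ) ∧
      (IsUnit (ψ + ε • adj ψ) → ∀ a, IsUnit (θ a + ε • adj (θ a))) := by
  classical
  have hεε : ε * ε = 1 := by rcases hε with rfl | rfl <;> norm_num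
  have hε0 : ε ≠ 0 := by rcases hε with rfl | rfl <;> norm_num
  have hA : ∀ i j g, ((ψ + ε • adj ψ) i j).coeff g
      = (ψ i j).coeff g + ε * (ψ j i).coeff g⁻¹ := by
    intro i j g
    rw [Matrix.add_apply, coeff_add', Matrix.smul_apply, coeff_zsmul', coeff_adj]
  have hsym : ∀ i j h, ((ψ + ε • adj ψ) i j).coeff h ≠ 0 →
      ((ψ + ε • adj ψ) j i).coeff h⁻¹ ≠ 0 := by
    intro i j h hne h0
    apply hne
    rw [hA] at h0 ⊢
    rw [inv_inv] at h0
    have h1 : (ψ i j).coeff h + ε * (ψ j i).coeff h⁻¹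
        = ε * ((ψ j i).coeff h⁻¹ + ε * (ψ i j).coeff h) := by
      linear_combination (-(ψ i j).coeff h) * hεε
    rw [h1, h0, mul_zero]
  obtain ⟨ρ, u, C, hC, hstr⟩ := sym_structure_of htf (ψ + ε • adj ψ) hsym hcyc
  set φ := Dm u * ψ * adj (Dm u) with hφ
  have hφc : ∀ i j g, (φ i j).coeff g = (ψ i j).coeff ((u i)⁻¹ * g * u j) := Dm_mul u ψ
  have hB : ∀ i j g, (φ i j).coeff g + ε * (φ j i).coeff g⁻¹ ≠ 0 → ρ i = ρ j ∧ g ∈ C (ρ i) := by
    intro i j g hne
    have h1 := hstr i j ((u i)⁻¹ * g * u j) (by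
      rw [hA]
      rw [hφc, hφc] at hne
      have h2 : (u j)⁻¹ * g⁻¹ * u i = ((u i)⁻¹ * g * u j)⁻¹ := by group
      rwa [h2] at hne)
    have h3 : u i * ((u i)⁻¹ * g * u j) * (u j)⁻¹ = g := by group
    rwa [h3] at h1
  let θ : ∀ a, Matrix {i // ρ i = a} {i // ρ i = a} (MonoidAlgebra ℤ (C a)) := fun a i j =>
    MonoidAlgebra.comapDomain (C a).subtype (C a).subtype_injective (φ i.1 j.1)
  have hS : ∀ i j g, ((indSum ρ C θ) i j).coeff g
      = if ρ j = ρ i ∧ g ∈ C (ρ i) then (φ i j).coeff g else 0 := by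
    intro i j g
    unfold indSum
    by_cases h : ρ j = ρ i
    · rw [dif_pos h]
      change (MonoidAlgebra.mapDomain (C (ρ i)).subtype (MonoidAlgebra.comapDomain
        (C (ρ i)).subtype (C (ρ i)).subtype_injective (φ i j))).coeff g = _
      rw [coeff_map_comap]
      by_cases h2 : g ∈ C (ρ i)
      · rw [if_pos h2, if_pos ⟨h, h2⟩]
      · rw [if_neg h2, if_neg (fun h3 => h2 h3.2)]
    · rw [dif_neg h, if_neg (fun h3 => h h3.1)]
      rfl
  have hsymm : ∀ i j g, (ρ j = ρ i ∧ g ∈ C (ρ i)) ↔ (ρ i = ρ j ∧ g⁻¹ ∈ C (ρ j)) := by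
    intro i j g
    constructor
    · rintro ⟨h1, h2⟩
      exact ⟨h1.symm, by rw [h1]; exact inv_mem h2⟩
    · rintro ⟨h1, h2⟩
      refine ⟨h1.symm, ?_⟩
      rw [h1]
      have := inv_mem h2
      rwa [inv_inv] at this
  obtain ⟨χ, hχ⟩ := exists_alt (fun g hg => htf g 2 two_pos (by
      rw [sq]; nth_rewrite 2 [hg]; exact mul_inv_cancel g)) ε (φ - indSum ρ C θ)
    (fun i j g => by
      rw [Matrix.sub_apply, Matrix.sub_apply, coeff_sub', coeff_sub', hS, hS]
      by_cases h : ρ j = ρ i ∧ g ∈ C (ρ i)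
      · rw [if_pos h, if_pos ((hsymm i j g).1 h)]
        ring
      · rw [if_neg h, if_neg (fun h' => h ((hsymm i j g).2 h'))]
        by_contra hcon
        have h3 := hB i j g (by simpa using hcon)
        exact h ⟨h3.1.symm, h3.2⟩)
    (fun i => by
      rw [Matrix.sub_apply, coeff_sub', hS, if_pos ⟨rfl, one_mem _⟩, sub_self])
  refine ⟨ρ, u, C, θ, χ, hC, ?_, ?_⟩
  · rw [← hχ]
    abel
  · intro hunit a
    -- the matrix of the adjoint of `φ`
    set B := φ + ε • adj φ with hBd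
    have hBA : B = Dm u * (ψ + ε • adj ψ) * adj (Dm u) := by
      rw [hBd, hφ, adj_mul, adj_mul, adj_adj, Matrix.mul_add, Matrix.add_mul,
        Matrix.mul_smul, Matrix.smul_mul, Matrix.mul_assoc (Dm u) (adj ψ)]
    have hDu := Dm_mul_inv u
    obtain ⟨v, hv⟩ := hunit
    have hBN : B * (Dm u * (↑v⁻¹ : Matrix ι ι (MonoidAlgebra ℤ G)) * adj (Dm u)) = 1 := by
      rw [hBA, ← hv]
      calc Dm u * (v : Matrix ι ι (MonoidAlgebra ℤ G)) * adj (Dm u)
            * (Dm u * (↑v⁻¹ : Matrix ι ι (MonoidAlgebra ℤ G)) * adj (Dm u))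
          = Dm u * ((v : Matrix ι ι (MonoidAlgebra ℤ G)) * ((adj (Dm u) * Dm u)
            * (↑v⁻¹ : Matrix ι ι (MonoidAlgebra ℤ G)))) * adj (Dm u) := by
              simp only [Matrix.mul_assoc]
        _ = 1 := by
              rw [hDu.2, Matrix.one_mul, Units.mul_inv, Matrix.mul_one, hDu.1]
    have hNB : (Dm u * (↑v⁻¹ : Matrix ι ι (MonoidAlgebra ℤ G)) * adj (Dm u)) * B = 1 := by
      rw [hBA, ← hv]
      calc (Dm u * (↑v⁻¹ : Matrix ι ι (MonoidAlgebra ℤ G)) * adj (Dm u))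
            * (Dm u * (v : Matrix ι ι (MonoidAlgebra ℤ G)) * adj (Dm u))
          = Dm u * ((↑v⁻¹ : Matrix ι ι (MonoidAlgebra ℤ G)) * ((adj (Dm u) * Dm u)
            * (v : Matrix ι ι (MonoidAlgebra ℤ G)))) * adj (Dm u) := by
              simp only [Matrix.mul_assoc]
        _ = 1 := by
              rw [hDu.2, Matrix.one_mul, Units.inv_mul, Matrix.mul_one, hDu.1]
    have hBc : ∀ i j g, (B i j).coeff g = (φ i j).coeff g + ε * (φ j i).coeff g⁻¹ := by
      intro i j g
      rw [hBd, Matrix.add_apply, coeff_add', Matrix.smul_apply, coeff_zsmul', coeff_adj]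
    have hBρ : ∀ i j, B i j ≠ 0 → ρ i = ρ j := by
      intro i j hne
      by_contra hcon
      apply hne
      ext g
      by_contra h0
      rw [MonoidAlgebra.coeff_zero, Finsupp.coe_zero, Pi.zero_apply, hBc] at h0
      exact hcon (hB i j g h0).1
    have hblk : mpm (MonoidAlgebra.mapDomainRingHom ℤ (C a).subtype) (θ a + ε • adj (θ a))
        = B.submatrix Subtype.val Subtype.val := by
      ext i j g
      change (MonoidAlgebra.mapDomain (C a).subtype ((θ a + ε • adj (θ a)) i j)).coeff g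
        = (B i.1 j.1).coeff g
      have e1 : (θ a + ε • adj (θ a)) i j = MonoidAlgebra.comapDomain (C a).subtype
          (C a).subtype_injective (B i.1 j.1) := by
        ext k
        rw [Matrix.add_apply, coeff_add', Matrix.smul_apply, coeff_zsmul', coeff_adj]
        simp only [θ, MonoidAlgebra.coeff_comapDomain, Finsupp.comapDomain_apply]
        rw [hBc]
        rfl
      rw [e1, coeff_map_comap]
      split_ifs with h
      · rfl
      · by_contra h0
        apply h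
        have h0' : (B i.1 j.1).coeff g ≠ 0 := fun h' => h0 h'.symm
        rw [hBc] at h0'
        have := (hB i.1 j.1 g h0').2
        rwa [i.2] at this
    apply isUnit_of_isUnit_map
    rw [hblk]
    exact ⟨⟨_, _, mul_block ρ a B _ hBρ hBN, mul_block' ρ a B _ hBρ hNB⟩, rfl⟩

end form

end Pool.Agent.Q181.TO
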