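import Pool.Agent.TH57.Thr.Tri

set_option autoImplicit false

/-! The test vector of an induced tripod (the computation is the one of `TH57.Thr.tripod_bound`). -/

namespace Pool.Agent.Q181.TO

open TH57.Thr

/-- the test vector of a tripod -/
theorem tripod_vec {V : Type*} [DecidableEq V] (W : V → V → ℝ)
    (hsymm : ∀ u v, W u v = W v u)
    (N : ℕ) (a : Fin 3 → ℕ → V) (o : V) (h0 : ∀ i, a i 0 = o)
    (hinj : ∀ i j k l, k ≤ N → l ≤ N → a i k = a j l → (k = 0 ∧ l = 0) ∨ (i = j ∧ k = l))
    (hW0 : ∀ i k l, k ≤ N → l ≤ N → k + 1 ≠ l → l + 1 ≠ k → W (a i k) (a i l) = 0)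
    (hWc : ∀ i j k l, i ≠ j → 1 ≤ k → k ≤ N → 1 ≤ l → l ≤ N → W (a i k) (a j l) = 0)
    (hW1 : ∀ i k, k < N → 1 ≤ |W (a i k) (a i (k + 1))|) (t : ℝ) (ht0 : 0 < t)
    (ht : t ^ 2 = 1 / 2) :
    ∃ (s : Finset V) (f : V → ℝ), (∀ v, v ∉ s → f v = 0) ∧
      12 * t * (1 - (1 / 2) ^ N) ≤ ∑ u ∈ s, ∑ v ∈ s, W u v * f u * f v ∧
      ∑ u ∈ s, f u ^ 2 = 4 - 3 * (1 / 2) ^ N ∧ f o = 1 ∧
      ∀ v ∈ s, ∃ i k, k ≤ N ∧ v = a i k ∧ (f v = t ^ k ∨ f v = -t ^ k) := by
  classical
  set w : Fin 3 → ℕ → ℝ := fun i k => W (a i k) (a i (k + 1)) with hw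
  set φ : Fin 3 → ℕ → ℝ := fun i k => sg (w i) k * t ^ k with hφ
  have hφ0 : ∀ i, φ i 0 = 1 := fun i => by simp [hφ, sg]
  have hφsq : ∀ i k, φ i k ^ 2 = (1 / 2) ^ k := by
    intro i k
    simp only [hφ]
    rw [mul_pow, ← ht, ← pow_mul, ← pow_mul, mul_comm 2 k, sq (sg (w i) k), sg_sq]
    ring
  have hB : ∀ i k, k < N → t * (1 / 2) ^ k ≤ w i k * φ i k * φ i (k + 1) := by
    intro i k hk
    have h1 : w i k * φ i k * φ i (k + 1) = |w i k| * (t * (1 / 2) ^ k) := by
      rw [← sg_step (w i) k]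
      simp only [hφ]
      rw [← ht, ← pow_mul]
      ring
    rw [h1]
    have h2 := hW1 i k hk
    have h3 : 0 ≤ t * (1 / 2 : ℝ) ^ k := by positivity
    nlinarith
  -- index type
  let τ : Option (Fin 3 × Fin N) → V := fun p => p.elim o (fun q => a q.1 (q.2 + 1))
  let F : Option (Fin 3 × Fin N) → ℝ := fun p => p.elim 1 (fun q => φ q.1 (q.2 + 1))
  have hτ : Function.Injective τ := by
    intro p q h
    rcases p with _ | ⟨i, k⟩ <;> rcases q with _ | ⟨j, l⟩
    · rfl
    · exfalso
      simp only [τ, Option.elim] at h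
      rw [← h0 j] at h
      rcases hinj j j 0 (l + 1) (by omega) (by omega) h with h | h <;> omega
    · exfalso
      simp only [τ, Option.elim] at h
      rw [← h0 i] at h
      rcases hinj i i (k + 1) 0 (by omega) (by omega) h with h | h <;> omega
    · simp only [τ, Option.elim] at h
      rcases hinj i j (k + 1) (l + 1) (by omega) (by omega) h with h | h
      · omega
      · obtain ⟨rfl, h2⟩ := h
        congr 2
        ext
        omega
  let s : Finset V := Finset.univ.image τ
  let f : V → ℝ := fun v => ∑ p, if τ p = v then F p else 0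
  have hf : ∀ p, f (τ p) = F p := by
    intro p
    simp only [f]
    rw [Finset.sum_eq_single p]
    · simp
    · intro q _ hq
      rw [if_neg (fun h => hq (hτ h))]
    · simp
  have hsum : ∀ g : V → ℝ, ∑ u ∈ s, g u = ∑ p, g (τ p) := by
    intro g
    simp only [s]
    rw [Finset.sum_image (fun x _ y _ h => hτ h)]
  -- the square sum
  have hS : ∑ k ∈ Finset.range N, ((1 : ℝ) / 2) ^ k = 2 - 2 * (1 / 2) ^ N := geom_half N
  have hnorm : ∑ p, F p ^ 2 = 1 + 3 * (∑ k ∈ Finset.range N, (1 / 2 : ℝ) ^ (k + 1)) := by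
    rw [Fintype.sum_option, Fintype.sum_prod_type]
    simp only [F, Option.elim, hφsq]
    rw [one_pow, Finset.sum_const, Finset.card_univ, Fintype.card_fin,
      Fin.sum_univ_eq_sum_range (fun k => (1 / 2 : ℝ) ^ (k + 1)) N]
    simp
  have hnorm2 : ∑ p, F p ^ 2 = 4 - 3 * (1 / 2) ^ N := by
    rw [hnorm]
    have : ∑ k ∈ Finset.range N, (1 / 2 : ℝ) ^ (k + 1)
        = (1 / 2) * ∑ k ∈ Finset.range N, (1 / 2 : ℝ) ^ k := by
      rw [Finset.mul_sum]
      exact Finset.sum_congr rfl fun k _ => by ring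
    rw [this, hS]; ring
  -- lower bound of the quadratic form
  have hcen : ∑ q, W (τ none) (τ q) * F none * F q
      = ∑ i : Fin 3, if 0 < N then w i 0 * φ i 0 * φ i 1 else 0 := by
    rw [Fintype.sum_option, Fintype.sum_prod_type]
    have h1 : W (τ none) (τ none) = 0 := by
      have := hW0 0 0 0 (by omega) (by omega) (by omega) (by omega)
      rw [h0] at this
      exact this
    rw [h1]
    simp only [zero_mul, zero_add]
    refine Finset.sum_congr rfl fun i _ => ?_
    simp only [τ, F, Option.elim]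
    rw [Fin.sum_univ_eq_sum_range (fun k => W o (a i (k + 1)) * 1 * φ i (k + 1)) N]
    split_ifs with hN
    · rw [Finset.sum_eq_single 0]
      · simp only [hw, hφ0, h0, zero_add]
      · intro k hk hk0
        rw [← h0 i, hW0 i 0 (k + 1) (by omega) (by have := Finset.mem_range.1 hk; omega)
          (by omega) (by omega)]
        ring
      · intro h
        exact absurd (Finset.mem_range.2 hN) h
    · have : N = 0 := by omega
      subst this
      simp
  have harm : ∀ i : Fin 3, ∀ k : Fin N,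
      ∑ q, W (τ (some (i, k))) (τ q) * F (some (i, k)) * F q
      = w i k * φ i k * φ i (k + 1)
        + (if (k : ℕ) + 1 < N then w i (k + 1) * φ i (k + 1) * φ i (k + 2) else 0) := by
    intro i k
    rw [Fintype.sum_option, Fintype.sum_prod_type]
    have h1 : ∑ j : Fin 3, ∑ l : Fin N,
        W (τ (some (i, k))) (τ (some (j, l))) * F (some (i, k)) * F (some (j, l))
        = ∑ l : Fin N, W (τ (some (i, k))) (τ (some (i, l))) * F (some (i, k)) * F (some (i, l)) := by
      rw [Finset.sum_eq_single i]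
      · intro j _ hj
        refine Finset.sum_eq_zero fun l _ => ?_
        simp only [τ, Option.elim]
        rw [hWc i j (k + 1) (l + 1) (Ne.symm hj) (by omega) (by omega) (by omega) (by omega)]
        ring
      · simp
    rw [h1]
    simp only [τ, F, Option.elim]
    rw [Fin.sum_univ_eq_sum_range
      (fun l => W (a i (k + 1)) (a i (l + 1)) * φ i (k + 1) * φ i (l + 1)) N]
    have h2 : W (a i (k + 1)) o * φ i (k + 1) * 1
        + ∑ l ∈ Finset.range N, W (a i (k + 1)) (a i (l + 1)) * φ i (k + 1) * φ i (l + 1)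
        = ∑ l ∈ Finset.range (N + 1), W (a i (k + 1)) (a i l) * φ i (k + 1) * φ i l := by
      rw [Finset.sum_range_succ', h0, hφ0]
      ring
    rw [h2]
    have hk := k.2
    split_ifs with hkN
    · rw [Finset.sum_eq_add (k : ℕ) ((k : ℕ) + 2) (by omega)]
      · simp only [hw]
        rw [hsymm (a i (k + 1)) (a i k)]
        ring
      · rintro l hl ⟨h3, h4⟩
        rw [hW0 i (k + 1) l (by omega) (by have := Finset.mem_range.1 hl; omega) (by omega)
          (by omega)]
        ring
      · intro h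
        exact absurd (Finset.mem_range.2 (by omega)) h
      · intro h
        exact absurd (Finset.mem_range.2 (by omega)) h
    · rw [Finset.sum_eq_single (k : ℕ)]
      · simp only [hw]
        rw [hsymm (a i (k + 1)) (a i k)]
        ring
      · intro l hl h3
        rw [hW0 i (k + 1) l (by omega) (by have := Finset.mem_range.1 hl; omega)
          (by have := Finset.mem_range.1 hl; omega) (by omega)]
        ring
      · intro h
        exact absurd (Finset.mem_range.2 (by omega)) h
  have hQ : ∑ p, ∑ q, W (τ p) (τ q) * F p * F q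
      = ∑ i : Fin 3, 2 * ∑ k ∈ Finset.range N, w i k * φ i k * φ i (k + 1) := by
    rw [Fintype.sum_option, Fintype.sum_prod_type, hcen]
    simp only [harm]
    rw [← Finset.sum_add_distrib]
    refine Finset.sum_congr rfl fun i _ => ?_
    rw [Finset.sum_add_distrib]
    rw [Fin.sum_univ_eq_sum_range (fun k => w i k * φ i k * φ i (k + 1)) N]
    rw [Fin.sum_univ_eq_sum_range
      (fun k => if k + 1 < N then w i (k + 1) * φ i (k + 1) * φ i (k + 2) else 0) N]
    have h3 : (if 0 < N then w i 0 * φ i 0 * φ i 1 else 0)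
        + ∑ k ∈ Finset.range N, (if k + 1 < N then w i (k + 1) * φ i (k + 1) * φ i (k + 2) else 0)
        = ∑ k ∈ Finset.range (N + 1), (if k < N then w i k * φ i k * φ i (k + 1) else 0) := by
      rw [Finset.sum_range_succ']
      rw [add_comm]
    have h4 : ∑ k ∈ Finset.range (N + 1), (if k < N then w i k * φ i k * φ i (k + 1) else 0)
        = ∑ k ∈ Finset.range N, w i k * φ i k * φ i (k + 1) := by
      rw [Finset.sum_range_succ, if_neg (lt_irrefl N), add_zero]
      exact Finset.sum_congr rfl fun k hk => by rw [if_pos (Finset.mem_range.1 hk)]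
    linarith [h3, h4]
  have hQ2 : 3 * (2 * (t * (2 - 2 * (1 / 2) ^ N))) ≤ ∑ p, ∑ q, W (τ p) (τ q) * F p * F q := by
    rw [hQ]
    have : ∀ i : Fin 3, 2 * (t * (2 - 2 * (1 / 2) ^ N))
        ≤ 2 * ∑ k ∈ Finset.range N, w i k * φ i k * φ i (k + 1) := by
      intro i
      rw [← hS, Finset.mul_sum]
      have := Finset.sum_le_sum fun k (hk : k ∈ Finset.range N) => hB i k (Finset.mem_range.1 hk)
      linarith
    have h5 := Finset.sum_le_sum fun i (_ : i ∈ Finset.univ) => this i
    rw [Finset.sum_const, Finset.card_univ, Fintype.card_fin] at h5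
    simpa using h5
  have hsg : ∀ i k, φ i k = t ^ k ∨ φ i k = -t ^ k := by
    intro i k
    have h1 : sg (w i) k = 1 ∨ sg (w i) k = -1 := mul_self_eq_one_iff.1 (sg_sq (w i) k)
    simp only [hφ]
    rcases h1 with h1 | h1 <;> rw [h1]
    · left; ring
    · right; ring
  refine ⟨s, f, ?_, ?_, ?_, ?_, ?_⟩
  · intro v hv
    simp only [f]
    refine Finset.sum_eq_zero fun p _ => ?_
    rw [if_neg]
    intro h
    exact hv (Finset.mem_image.2 ⟨p, Finset.mem_univ _, h⟩)
  · have e1 : ∑ u ∈ s, ∑ v ∈ s, W u v * f u * f v = ∑ p, ∑ q, W (τ p) (τ q) * F p * F q := by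
      rw [hsum]
      refine Finset.sum_congr rfl fun p _ => ?_
      rw [hsum]
      refine Finset.sum_congr rfl fun q _ => ?_
      rw [hf, hf]
    rw [e1]
    linarith
  · rw [hsum, ← hnorm2]
    exact Finset.sum_congr rfl fun p _ => by rw [hf]
  · exact hf none
  · intro v hv
    obtain ⟨p, -, rfl⟩ := Finset.mem_image.1 hv
    rw [hf]
    rcases p with _ | ⟨i, k⟩
    · exact ⟨0, 0, Nat.zero_le _, (h0 0).symm, by left; simp [F]⟩
    · exact ⟨i, k + 1, by omega, rfl, hsg i (k + 1)⟩

end Pool.Agent.Q181.TO
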